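import Mathlib

set_option autoImplicit false

namespace Pool.Agent.Results.MP_c24244_an.Counter

open scoped ENNReal

/-- Property `β` with constant `ρ`. -/
def HasBeta (Y : Type) [NormedAddCommGroup Y] [NormedSpace ℝ Y] (ρ : ℝ) : Prop :=
  ∃ (Λ : Type) (y : Λ → Y) (ys : Λ → Y →L[ℝ] ℝ), (∀ a, ‖y a‖ = 1) ∧ (∀ a, ‖ys a‖ = 1) ∧
    (∀ a, ys a (y a) = 1) ∧ (∀ a c, a ≠ c → |ys a (y c)| ≤ ρ) ∧
    ∀ v : Y, IsLUB (Set.range fun a => |ys a v|) ‖v‖

def PiS (X Y : Type) [NormedAddCommGroup X] [NormedSpace ℝ X] [NormedAddCommGroup Y]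
    [NormedSpace ℝ Y] (ε : ℝ) : Set (X × (X →L[ℝ] Y)) :=
  {p | ‖p.1‖ = 1 ∧ ‖p.2‖ = 1 ∧ 1 - ε < ‖p.2 p.1‖}

def Pi0 (X Y : Type) [NormedAddCommGroup X] [NormedSpace ℝ X] [NormedAddCommGroup Y]
    [NormedSpace ℝ Y] : Set (X × (X →L[ℝ] Y)) :=
  {p | ‖p.1‖ = 1 ∧ ‖p.2‖ = 1 ∧ ‖p.2 p.1‖ = 1}

/-- The spherical modulus, computed in `[0, ∞]`. -/
noncomputable def PhiS (X Y : Type) [NormedAddCommGroup X] [NormedSpace ℝ X]
    [NormedAddCommGroup Y] [NormedSpace ℝ Y] (ε : ℝ) : ℝ≥0∞ :=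
  ⨆ p ∈ PiS X Y ε, ⨅ q ∈ Pi0 X Y, ENNReal.ofReal (max ‖p.1 - q.1‖ ‖p.2 - q.2‖)

def Ysub : Submodule ℝ (Fin 4 → ℝ) where
  carrier := {v | v 2 = 7 / 10 * (v 0 + v 1) ∧ v 3 = 7 / 10 * (v 0 - v 1)}
  add_mem' := by
    rintro a b ⟨h1, h2⟩ ⟨h3, h4⟩
    constructor <;> simp only [Pi.add_apply] <;> linarith
  zero_mem' := by constructor <;> simp
  smul_mem' := by
    rintro c a ⟨h1, h2⟩
    constructor <;> simp only [Pi.smul_apply, smul_eq_mul]
    · rw [h1]; ring
    · rw [h2]; ring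

noncomputable def mk (a b : ℝ) : Ysub :=
  ⟨![a, b, 7 / 10 * (a + b), 7 / 10 * (a - b)], by constructor <;> simp⟩

noncomputable def pr (j : Fin 4) : Ysub →L[ℝ] ℝ :=
  (ContinuousLinearMap.proj j).comp Ysub.subtypeL

lemma pr_apply (j : Fin 4) (v : Ysub) : pr j v = v.1 j := rfl

lemma co_le (v : Ysub) (j : Fin 4) : |v.1 j| ≤ ‖v‖ := norm_le_pi_norm v.1 j

lemma le_co (v : Ysub) {M : ℝ} (hM : 0 ≤ M) (h : ∀ j, |v.1 j| ≤ M) : ‖v‖ ≤ M :=
  (pi_norm_le_iff_of_nonneg hM).mpr h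

lemma ex_co (v : Ysub) (h : ‖v‖ = 1) : ∃ j, |v.1 j| = 1 := by
  by_contra hn
  push Not at hn
  have : ‖v.1‖ < 1 := (pi_norm_lt_iff one_pos).mpr fun j =>
    lt_of_le_of_ne (h ▸ co_le v j) (hn j)
  exact absurd h (ne_of_lt this)

noncomputable def ya : Fin 4 → Ysub := ![mk 1 0, mk 0 1, mk (5 / 7) (5 / 7), mk (5 / 7) (-5 / 7)]

lemma ya_diag (a : Fin 4) : (ya a).1 a = 1 := by
  fin_cases a <;> simp [ya, mk] <;> norm_num

lemma ya_off (a c : Fin 4) (h : a ≠ c) : |(ya c).1 a| ≤ 5 / 7 := by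
  rw [abs_le]
  fin_cases a <;> fin_cases c <;> simp [ya, mk] at h ⊢ <;> norm_num

lemma ya_norm (a : Fin 4) : ‖ya a‖ = 1 := by
  apply le_antisymm
  · refine le_co _ zero_le_one fun j => ?_
    by_cases h : j = a
    · rw [h, ya_diag]; simp
    · linarith [ya_off j a h]
  · have := co_le (ya a) a
    rwa [ya_diag, abs_one] at this

lemma beta : HasBeta Ysub (5 / 7) := by
  refine ⟨Fin 4, ya, pr, ya_norm, fun a => ?_, ya_diag, ya_off, fun v => ⟨?_, ?_⟩⟩
  · apply le_antisymm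
    · exact ContinuousLinearMap.opNorm_le_bound _ zero_le_one fun v => by
        rw [one_mul]; exact co_le v a
    · have := (pr a).le_opNorm (ya a)
      rwa [pr_apply, ya_diag, ya_norm, norm_one, mul_one] at this
  · rintro _ ⟨a, rfl⟩
    exact co_le v a
  · intro M hM
    have h : ∀ j, |v.1 j| ≤ M := fun j => hM ⟨j, rfl⟩
    exact le_co v ((abs_nonneg _).trans (h 0)) h

abbrev X5 : Type := PiLp 1 (fun _ : Fin 5 => ℝ)

noncomputable def e (i : Fin 5) : X5 := WithLp.toLp 1 (Pi.single i 1)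

lemma nrm (z : X5) : ‖z‖ = ∑ i, |z i| := by
  rw [PiLp.norm_eq_of_L1]; rfl

lemma e_norm (i : Fin 5) : ‖e i‖ = 1 := by
  rw [nrm]
  fin_cases i <;> simp [e, Fin.sum_univ_five, Pi.single_apply]

lemma decomp (z : X5) : z = ∑ i, z i • e i := by
  ext j
  fin_cases j <;> simp [e, Fin.sum_univ_five, Pi.single_apply]

noncomputable def t : Fin 5 → Ysub :=
  ![mk 1 0, mk (5 / 7) (5 / 7), mk (-5 / 7) (5 / 7), mk (-1) 0, mk 0 (-1)]

lemma t_le (i : Fin 5) : ‖t i‖ ≤ 1 := by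
  refine le_co _ zero_le_one fun j => ?_
  rw [abs_le]
  fin_cases i <;> fin_cases j <;> simp [t, mk] <;> norm_num

noncomputable def T : X5 →L[ℝ] Ysub :=
  ∑ i, (PiLp.proj 1 (fun _ : Fin 5 => ℝ) i).smulRight (t i)

lemma T_apply (z : X5) : T z = ∑ i, z i • t i := by
  simp [T]

lemma T_e (i : Fin 5) : T (e i) = t i := by
  rw [T_apply]
  fin_cases i <;> simp [e, Fin.sum_univ_five, Pi.single_apply]

lemma t0 : ‖t 0‖ = 1 := ya_norm 0

lemma T_norm : ‖T‖ = 1 := by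
  apply le_antisymm
  · refine ContinuousLinearMap.opNorm_le_bound _ zero_le_one fun z => ?_
    rw [T_apply, one_mul, nrm]
    refine (norm_sum_le _ _).trans (Finset.sum_le_sum fun i _ => ?_)
    rw [norm_smul, Real.norm_eq_abs]
    exact mul_le_of_le_one_right (abs_nonneg _) (t_le i)
  · have := T.le_opNorm (e 0)
    rwa [T_e, t0, e_norm, mul_one] at this

noncomputable def x0 : X5 := WithLp.toLp 1 (fun _ => 1 / 5)

lemma x0_norm : ‖x0‖ = 1 := by
  rw [nrm]; simp [x0]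

lemma Tx0 : 1 - 19 / 20 < ‖T x0‖ := by
  have h := co_le (T x0) 1
  have h2 : (T x0).1 1 = 3 / 35 := by
    rw [T_apply]
    simp [Fin.sum_univ_five, x0, t, mk]
    norm_num
  rw [h2, abs_of_pos (by norm_num)] at h
  linarith

def good (j : Fin 4) (s : Bool) (i : Fin 5) : Bool :=
  if s then ![![true, true, false, false, false], ![false, true, true, false, false],
      ![true, true, false, false, false], ![true, false, false, false, true]] j i
  else ![![false, false, true, true, false], ![false, false, false, false, true],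
      ![false, false, false, true, true], ![false, false, true, true, false]] j i

lemma bad (f : Ysub) (i : Fin 5) (j : Fin 4) (s : Bool) (h1 : ‖f‖ ≤ 1) (h2 : ‖t i - f‖ < 11 / 10)
    (h3 : (if s then 1 else -1) * f.1 j = 1) : good j s i = true := by
  have a : ∀ k, |f.1 k| ≤ 1 := fun k => (co_le f k).trans h1
  have b : ∀ k, |(t i).1 k - f.1 k| < 11 / 10 := fun k => lt_of_le_of_lt (co_le (t i - f) k) h2
  obtain ⟨c1, c2⟩ := f.2
  have a0 := abs_le.mp (a 0)
  have a1 := abs_le.mp (a 1)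
  have a2 := abs_le.mp (a 2)
  have a3 := abs_le.mp (a 3)
  have b0 := abs_lt.mp (b 0)
  have b1 := abs_lt.mp (b 1)
  have b2 := abs_lt.mp (b 2)
  have b3 := abs_lt.mp (b 3)
  clear a b h1 h2
  fin_cases i <;> simp [t, mk] at b0 b1 b2 b3 <;> fin_cases j <;> cases s <;>
    first
    | rfl
    | (exfalso
       simp at h3
       linarith [a0.1, a0.2, a1.1, a1.2, a2.1, a2.2, a3.1, a3.2, b0.1, b0.2, b1.1, b1.2,
        b2.1, b2.2, b3.1, b3.2])

lemma good_card (j : Fin 4) (s : Bool) :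
    ∑ i : Fin 5, (if good j s i = true then (-1 / 5 : ℝ) else 1 / 5) ≥ 1 / 5 := by
  fin_cases j <;> cases s <;> simp [good, Fin.sum_univ_five] <;> norm_num

lemma far (z : X5) (F : X5 →L[ℝ] Ysub) (hz : ‖z‖ = 1) (hF : ‖F‖ = 1) (hFz : ‖F z‖ = 1) :
    11 / 10 ≤ max ‖x0 - z‖ ‖T - F‖ := by
  by_contra hn
  push Not at hn
  have hn1 := lt_of_le_of_lt (le_max_left _ _) hn
  have hn2 := lt_of_le_of_lt (le_max_right _ _) hn
  obtain ⟨j, hj⟩ := ex_co _ hFz
  obtain ⟨s, hs⟩ : ∃ s : Bool, (if s then 1 else -1) * (F z).1 j = 1 := by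
    rcases abs_cases ((F z).1 j) with c | c
    · exact ⟨true, by simp; linarith [c.1]⟩
    · exact ⟨false, by simp; linarith [c.1]⟩
  set σ : ℝ := if s then 1 else -1 with hσ
  have hσ1 : |σ| = 1 := by rw [hσ]; cases s <;> simp
  have fle : ∀ i, ‖F (e i)‖ ≤ 1 := fun i => by
    have := F.le_opNorm (e i)
    rwa [hF, e_norm, mul_one] at this
  have fcl : ∀ i, ‖t i - F (e i)‖ < 11 / 10 := fun i => by
    have := (T - F).le_opNorm (e i)
    rw [e_norm, mul_one, sub_apply, T_e] at this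
    linarith
  have cle : ∀ i, |σ * (F (e i)).1 j| ≤ 1 := fun i => by
    rw [abs_mul, hσ1, one_mul]; exact (co_le _ j).trans (fle i)
  have hsum : ∑ i, z i * (σ * (F (e i)).1 j) = 1 := by
    have h1 : F z = ∑ i, z i • F (e i) := by
      conv_lhs => rw [decomp z]
      simp
    have h2 : (F z).1 j = ∑ i, z i * (F (e i)).1 j := by
      rw [← pr_apply, h1, map_sum]
      simp [pr_apply]
    rw [h2, Finset.mul_sum] at hs
    rw [← hs]
    exact Finset.sum_congr rfl fun i _ => by ring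
  have hz1 : ∑ i, |z i| = 1 := by rw [← nrm, hz]
  have each : ∀ i, z i * (σ * (F (e i)).1 j) ≤ |z i| := fun i => by
    refine (le_abs_self _).trans ?_
    rw [abs_mul]
    exact mul_le_of_le_one_right (abs_nonneg _) (cle i)
  have eq : ∀ i, z i * (σ * (F (e i)).1 j) = |z i| := fun i =>
    (Finset.sum_eq_sum_iff_of_le (fun i _ => each i)).mp (by rw [hsum, hz1]) i (Finset.mem_univ i)
  have low : ∀ i, |z i| + (if good j s i = true then (-1 / 5 : ℝ) else 1 / 5) ≤ |(x0 - z) i| := by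
    intro i
    have hx : (x0 - z) i = 1 / 5 - z i := by simp [x0]
    rw [hx]
    split_ifs with hg
    · rcases abs_cases (z i) with c | c <;> rcases abs_cases (1 / 5 - z i) with d | d <;>
        linarith [c.1, c.2, d.1, d.2]
    · have hzi : z i ≤ 0 := by
        by_contra hp
        push Not at hp
        have h1 := eq i
        rw [abs_of_pos hp] at h1
        have h2 : σ * (F (e i)).1 j = 1 := by
          have := mul_left_cancel₀ hp.ne' (h1.trans (mul_one _).symm)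
          exact this
        exact hg (bad _ i j s (fle i) (fcl i) h2)
      rw [abs_of_nonpos hzi, abs_of_pos (by linarith)]
      linarith
  have tot := Finset.sum_le_sum (s := Finset.univ) fun i _ => low i
  rw [Finset.sum_add_distrib, hz1, ← nrm] at tot
  have := good_card j s
  linarith

theorem result : ∃ (ρ ε : ℝ) (X Y : Type) (_ : NormedAddCommGroup X) (_ : NormedSpace ℝ X)
    (_ : CompleteSpace X) (_ : NormedAddCommGroup Y) (_ : NormedSpace ℝ Y) (_ : CompleteSpace Y),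
    0 ≤ ρ ∧ ρ < 1 ∧ 0 < ε ∧ ε < 1 ∧ HasBeta Y ρ ∧ (Pi0 X Y).Nonempty ∧
      ENNReal.ofReal (11 / 10) ≤ PhiS X Y ε ∧
      ENNReal.ofReal (min (Real.sqrt (2 * ε) * Real.sqrt ((1 + ρ) / (1 - ρ))) 1) < PhiS X Y ε := by
  have h : ENNReal.ofReal (11 / 10) ≤ PhiS X5 Ysub (19 / 20) := by
    refine le_iSup₂_of_le (x0, T) ⟨x0_norm, T_norm, Tx0⟩ (le_iInf₂ fun q hq => ?_)
    exact ENNReal.ofReal_le_ofReal (far q.1 q.2 hq.1 hq.2.1 hq.2.2)
  refine ⟨5 / 7, 19 / 20, X5, Ysub, inferInstance, inferInstance, inferInstance, inferInstance,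
    inferInstance, FiniteDimensional.complete ℝ _, by norm_num, by norm_num, by norm_num,
    by norm_num, beta, ⟨(e 0, T), e_norm 0, T_norm, by rw [T_e]; exact t0⟩, h, ?_⟩
  refine lt_of_lt_of_le ?_ h
  rw [ENNReal.ofReal_lt_ofReal_iff (by norm_num)]
  exact lt_of_le_of_lt (min_le_right _ _) (by norm_num)

end Pool.Agent.Results.MP_c24244_an.Counter
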